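import Pool.Agent.H82.HD.TW
import Pool.Agent.H81.GT.LO

/-!
Row BCF: data far from the back projection.
-/

set_option autoImplicit false

open MeasureTheory Set
open scoped ENNReal NNReal RealInnerProductSpace

namespace Pool.Agent.H26.HD.BCF

open Pool.Agent.H82.HD
open Pool.Agent.H83.LS (EE BCd pr)
open Pool.Agent.H81.GT (SymE Ua ac zt tz Qz Yz Wz Th Kt Ua_conv)
open Pool.Agent.H83.G (E Z sR Lo)

theorem pr_cont {n : ℕ} : Continuous (pr : EE (n + 1) → EE n) := by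
  unfold pr
  fun_prop

theorem pr_sub {n : ℕ} (x u : EE (n + 1)) : pr (x - u) = pr x - pr u := by
  ext i
  simp [pr]

theorem tm_zt {n : ℕ} (u : EE (n + 1)) (t : ℝ) : tm (zt u t) = t := by
  unfold tm zt
  ring

theorem tz_zt {n : ℕ} (u : EE (n + 1)) (t : ℝ) : tz (zt u t) = t := by
  unfold tz zt
  ring

/-- the back projection of `(x, t)` in terms of the one of `(u, t)` -/
theorem bp_diff {n : ℕ} (η : E n) (x u : EE (n + 1)) (t : ℝ) :
    (((x - u) (Fin.last n) / 2, pr (x - u)) : ℝ × E n) - bp η (zt x t) = - bp η (zt u t) := by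
  have h1 := tm_zt x t
  have h2 := tm_zt u t
  unfold bp
  rw [h1, h2]
  unfold zt
  refine Prod.ext ?_ ?_
  · show (x - u) (Fin.last n) / 2 - ((t + x (Fin.last n)) / 2 - t * (‖η‖ ^ 2 / (1 + ‖η‖ ^ 2))) =
      - ((t + u (Fin.last n)) / 2 - t * (‖η‖ ^ 2 / (1 + ‖η‖ ^ 2)))
    have : (x - u) (Fin.last n) = x (Fin.last n) - u (Fin.last n) := rfl
    rw [this]
    ring
  · show pr (x - u) - (pr x + (2 * t / (1 + ‖η‖ ^ 2)) • η) =
      - (pr u + (2 * t / (1 + ‖η‖ ^ 2)) • η)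
    rw [pr_sub]
    abel

theorem pf_BCF (hBPG : T_BPG) (hPLE : Pool.Agent.H83.LS.T_PLE) (hACS : Pool.Agent.H81.GT.T_ACS)
    (hPOW : Pool.Agent.H81.GT.T_POW) (hTAI : Pool.Agent.H81.GT.T_TAI) : T_BCF := by
  intro n N κ D δ a hn hκ ha hD hδ
  obtain ⟨-, -, -, -, hB⟩ := hBPG n
  obtain ⟨CB, hCB1, hB1, hB2⟩ := hB (D + 1) (by linarith)
  obtain ⟨CP, hCP0, hP⟩ := hPOW n
  obtain ⟨N', hN'⟩ := exists_nat_ge ((N + n + 3 : ℝ) * 4 / δ)
  obtain ⟨CT, hCT0, hT⟩ := hTAI n N' κ a hn hκ ha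
  set C₁ : ℝ := CB * (1 + 4 * CP) + 32 * CB with hC₁
  have hC₁0 : 0 ≤ C₁ := by positivity
  refine ⟨C₁ + 1 + CT * 10 ^ (n + 3), by
    have : 0 ≤ CT * 10 ^ (n + 3) := by positivity
    linarith, ?_⟩
  intro R ρ A t η x f hR hρ hρR ht hη hf hfar
  have hR0 : 0 < R := by linarith
  have hρ0 : 0 < ρ := by linarith
  have hA0 : 0 ≤ A := (norm_nonneg _).trans (hf.2.1 0)
  have hsq1 : 1 ≤ Real.sqrt ρ := by
    rw [show (1 : ℝ) = Real.sqrt 1 from Real.sqrt_one.symm]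
    exact Real.sqrt_le_sqrt hρ
  have hsqR : Real.sqrt ρ ≤ Real.sqrt R := Real.sqrt_le_sqrt hρR
  have hsq0 : 0 < Real.sqrt ρ := by linarith
  obtain ⟨s, hs⟩ : ∃ s : ℝ, s = sR ρ := ⟨_, rfl⟩
  have hs' : s = (Real.sqrt ρ)⁻¹ := hs
  have hs0 : 0 < s := by rw [hs']; positivity
  have hs1 : s ≤ 1 := by rw [hs']; exact inv_le_one_of_one_le₀ hsq1
  have hsinv : s⁻¹ = Real.sqrt ρ := by rw [hs', inv_inv]
  have hsqRR : Real.sqrt R * Real.sqrt R = R := Real.mul_self_sqrt hR0.le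
  have hsR0 : 0 < Real.sqrt R := Real.sqrt_pos.mpr hR0
  have hsR1 : 1 ≤ Real.sqrt R := hsq1.trans hsqR
  have hRs : Real.sqrt R ≤ R * s := by
    rw [hs', ← div_eq_mul_inv, le_div_iff₀ hsq0]
    nlinarith
  rw [← hs] at hfar ⊢
  obtain ⟨hsym, -, -⟩ := hACS n κ s η a hκ ha hs0
  set b := ac a η s with hb
  set U : Set (EE (n + 1)) := {u | (C₁ + 1 + CT * 10 ^ (n + 3)) * R ^ δ * R * s ≤
    ‖(((x - u) (Fin.last n) / 2, pr (x - u)) : ℝ × E n) - bp η (zt x t)‖} with hU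
  have hUm : MeasurableSet U := by
    refine measurableSet_le measurable_const ?_
    have h1 : Continuous (fun u : EE (n + 1) =>
        (((x - u) (Fin.last n) / 2, pr (x - u)) : ℝ × E n) - bp η (zt x t)) := by
      have h2 : Continuous (fun u : EE (n + 1) => pr (x - u)) :=
        pr_cont.comp (continuous_const.sub continuous_id)
      have h3 : Continuous (fun u : EE (n + 1) => (x - u) (Fin.last n) / 2) := by fun_prop
      exact (h3.prodMk h2).sub continuous_const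
    exact h1.norm.measurable
  have hRd1 : 1 ≤ R ^ (δ / 4) := Real.one_le_rpow hR (by linarith)
  have hRd : (R ^ (δ / 4)) ^ 2 = R ^ (δ / 2) := by
    rw [← Real.rpow_natCast, ← Real.rpow_mul hR0.le]
    congr 1
    push_cast
    ring
  have hRle : R ^ (δ / 2) ≤ R ^ δ := Real.rpow_le_rpow_of_exponent_le hR (by linarith)
  have hRd4 : R ^ (δ / 4) ≤ R ^ (δ / 2) := Real.rpow_le_rpow_of_exponent_le hR (by linarith)
  -- the claim
  have hclaim : ∀ u ∈ U, ∀ θ ∈ Th η s, R ^ (δ / 4) ≤ Wz s (zt u t) θ := by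
    intro u hu θ hθ
    by_contra hcon
    rw [not_le] at hcon
    have hu' : (C₁ + 1 + CT * 10 ^ (n + 3)) * R ^ δ * R * s ≤ ‖bp η (zt u t)‖ := by
      have h1 : (C₁ + 1 + CT * 10 ^ (n + 3)) * R ^ δ * R * s ≤
        ‖(((x - u) (Fin.last n) / 2, pr (x - u)) : ℝ × E n) - bp η (zt x t)‖ := hu
      rwa [bp_diff, norm_neg] at h1
    obtain ⟨z, hz⟩ : ∃ z : Z n, z = zt u t := ⟨_, rfl⟩
    have htm : tm z = t := by rw [hz]; exact tm_zt u t
    have htz : tz z = t := by rw [hz]; exact tz_zt u t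
    rw [← hz] at hcon hu'
    obtain ⟨hθ1, hθ2⟩ := hθ
    have hθD : ‖θ‖ ≤ D + 1 := by linarith
    have hηD : ‖η‖ ≤ D + 1 := by linarith
    have hsg : 0 ≤ Pool.Agent.H81.GT.sg s z.2.2 := by
      unfold Pool.Agent.H81.GT.sg
      positivity
    have hQ : |Qz z θ| ≤ Wz s z θ := by
      unfold Wz
      have : 0 ≤ Pool.Agent.H81.GT.sg s z.2.2 * ‖Yz z θ‖ := mul_nonneg hsg (norm_nonneg _)
      linarith
    have hW0 : 0 ≤ Wz s z θ := (abs_nonneg _).trans hQ
    have hQ' : |Qz z θ| ≤ R ^ (δ / 2) * Real.sqrt R := by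
      have : R ^ (δ / 2) ≤ R ^ (δ / 2) * Real.sqrt R :=
        le_mul_of_one_le_right (by positivity) hsR1
      linarith
    have hY : ‖Yz z θ‖ ≤ 4 * CP * (R ^ (δ / 2) * Real.sqrt R) := by
      have h1 := (hP s z θ hs0 hs1 hθ2).2
      rw [htz, hsinv] at h1
      have h2 : Wz s z θ ^ 2 ≤ R ^ (δ / 2) := by
        rw [← hRd]
        exact pow_le_pow_left₀ hW0 hcon.le 2
      have h3 : Real.sqrt |t| ≤ 3 * Real.sqrt R := by
        have e1 : 3 * Real.sqrt R = Real.sqrt (9 * R) := by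
          rw [Real.sqrt_mul (by norm_num), show (9 : ℝ) = 3 ^ 2 by norm_num,
            Real.sqrt_sq (by norm_num)]
        rw [e1]
        exact Real.sqrt_le_sqrt (by linarith)
      calc ‖Yz z θ‖ ≤ CP * Wz s z θ ^ 2 * (Real.sqrt ρ + Real.sqrt |t|) := h1
        _ ≤ CP * R ^ (δ / 2) * (Real.sqrt R + 3 * Real.sqrt R) := by
          refine mul_le_mul (mul_le_mul_of_nonneg_left h2 hCP0.le) (add_le_add hsqR h3)
            (by positivity) (by positivity)
        _ = _ := by ring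
    have hbpθ : ‖bp θ z‖ ≤ CB * (1 + 4 * CP) * (R ^ (δ / 2) * Real.sqrt R) := by
      obtain ⟨-, -, h1, -⟩ := hB1 θ z hθD
      have e1 : (Lo θ 1 z).1 = Qz z θ := rfl
      have e2 : (Lo θ 1 z).2.1 = Yz z θ := by
        show (1 : ℝ) • (z.2.1 + (2 * z.2.2) • θ) = z.2.1 + (2 * z.2.2) • θ
        rw [one_smul]
      rw [e1, e2] at h1
      calc ‖bp θ z‖ ≤ CB * (|Qz z θ| + ‖Yz z θ‖) := h1
        _ ≤ CB * (R ^ (δ / 2) * Real.sqrt R + 4 * CP * (R ^ (δ / 2) * Real.sqrt R)) :=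
          mul_le_mul_of_nonneg_left (add_le_add hQ' hY) (by linarith)
        _ = _ := by ring
    have hbd : ‖bp θ z - bp η z‖ ≤ 32 * CB * (R * s) := by
      obtain ⟨h1, -⟩ := hB2 θ η z hθD hηD
      rw [htm] at h1
      have h2 : |t| * ‖θ - η‖ ≤ (8 * R) * (4 * s) :=
        mul_le_mul ht hθ1 (norm_nonneg _) (by positivity)
      calc ‖bp θ z - bp η z‖ ≤ CB * |t| * ‖θ - η‖ := h1
        _ = CB * (|t| * ‖θ - η‖) := by ring
        _ ≤ CB * ((8 * R) * (4 * s)) := mul_le_mul_of_nonneg_left h2 (by linarith)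
        _ = _ := by ring
    have hfin : ‖bp η z‖ ≤ C₁ * (R ^ δ * (R * s)) := by
      have h1 : ‖bp η z‖ ≤ ‖bp θ z‖ + ‖bp θ z - bp η z‖ := by
        have : bp η z = bp θ z - (bp θ z - bp η z) := by abel
        conv_lhs => rw [this]
        exact norm_sub_le _ _
      have hRs0 : 0 < R * s := by positivity
      have h2 : R ^ (δ / 2) * Real.sqrt R ≤ R ^ δ * (R * s) :=
        mul_le_mul hRle hRs hsR0.le (by positivity)
      have h3 : R * s ≤ R ^ δ * (R * s) :=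
        le_mul_of_one_le_left hRs0.le (Real.one_le_rpow hR hδ.le)
      have h4 : CB * (1 + 4 * CP) * (R ^ (δ / 2) * Real.sqrt R) ≤
          CB * (1 + 4 * CP) * (R ^ δ * (R * s)) :=
        mul_le_mul_of_nonneg_left h2 (by positivity)
      have h5 : 32 * CB * (R * s) ≤ 32 * CB * (R ^ δ * (R * s)) :=
        mul_le_mul_of_nonneg_left h3 (by positivity)
      calc ‖bp η z‖ ≤ CB * (1 + 4 * CP) * (R ^ δ * (R * s)) + 32 * CB * (R ^ δ * (R * s)) := by
            linarith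
        _ = _ := by rw [hC₁]; ring
    have hpos : 0 < R ^ δ * (R * s) := by positivity
    have h6 : (C₁ + 1 + CT * 10 ^ (n + 3)) * (R ^ δ * (R * s)) ≤ C₁ * (R ^ δ * (R * s)) := by
      refine le_trans (le_of_eq ?_) (hu'.trans hfin)
      ring
    have h7 : 0 ≤ CT * 10 ^ (n + 3) := by positivity
    nlinarith
  -- the tail
  have htail := hT η s (R ^ (δ / 4)) t U hs0 hs1 hRd1 hUm hclaim
  rw [← hb] at htail
  have hK : CT * (1 + |t| + s⁻¹) ^ (n + 3) * ((R ^ (δ / 4)) ^ N')⁻¹ ≤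
      CT * 10 ^ (n + 3) * (R ^ N)⁻¹ := by
    have h1 : 1 + |t| + s⁻¹ ≤ 10 * R := by
      rw [hsinv]
      have : Real.sqrt R ≤ R := by nlinarith
      linarith
    have h2 : (1 + |t| + s⁻¹) ^ (n + 3) ≤ (10 * R) ^ (n + 3) :=
      pow_le_pow_left₀ (by positivity) h1 _
    have h3 : R ^ (N + n + 3) ≤ (R ^ (δ / 4)) ^ N' := by
      rw [← Real.rpow_natCast (R ^ (δ / 4)), ← Real.rpow_mul hR0.le, ← Real.rpow_natCast]
      refine Real.rpow_le_rpow_of_exponent_le hR ?_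
      rw [div_le_iff₀ hδ] at hN'
      push_cast
      linarith
    have h4 : ((R ^ (δ / 4)) ^ N')⁻¹ ≤ (R ^ (N + n + 3))⁻¹ := inv_anti₀ (by positivity) h3
    calc CT * (1 + |t| + s⁻¹) ^ (n + 3) * ((R ^ (δ / 4)) ^ N')⁻¹
        ≤ CT * (10 * R) ^ (n + 3) * (R ^ (N + n + 3))⁻¹ :=
          mul_le_mul (mul_le_mul_of_nonneg_left h2 hCT0.le) h4 (by positivity) (by positivity)
      _ = CT * 10 ^ (n + 3) * (R ^ N)⁻¹ := by
          rw [mul_pow, show N + n + 3 = (n + 3) + N by ring, pow_add R (n + 3) N, mul_inv]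
          field_simp
  have hmain : ‖Ua b t f x‖ₑ ≤ ENNReal.ofReal (A * (CT * 10 ^ (n + 3) * (R ^ N)⁻¹)) := by
    rw [Ua_conv hsym hPLE t hf x]
    calc ‖∫ y, Kt b t (x - y) * f y‖ₑ ≤ ∫⁻ y, ‖Kt b t (x - y) * f y‖ₑ :=
          enorm_integral_le_lintegral_enorm _
      _ ≤ ∫⁻ y, ENNReal.ofReal A * U.indicator (fun u => ‖Kt b t u‖ₑ) (x - y) := by
          refine lintegral_mono fun y => ?_
          by_cases hy : f y = 0
          · simp [hy]
          · have hmem : x - y ∈ U := by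
              show (C₁ + 1 + CT * 10 ^ (n + 3)) * R ^ δ * R * s ≤
                ‖(((x - (x - y)) (Fin.last n) / 2, pr (x - (x - y))) : ℝ × E n) -
                  bp η (zt x t)‖
              rw [sub_sub_cancel]
              exact hfar y hy
            rw [indicator_of_mem hmem, enorm_mul, mul_comm]
            refine mul_le_mul' ?_ le_rfl
            rw [← ofReal_norm]
            exact ENNReal.ofReal_le_ofReal (hf.2.1 y)
      _ = ENNReal.ofReal A * ∫⁻ y, U.indicator (fun u => ‖Kt b t u‖ₑ) (x - y) :=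
          lintegral_const_mul' _ _ ENNReal.ofReal_ne_top
      _ = ENNReal.ofReal A * ∫⁻ u, U.indicator (fun u => ‖Kt b t u‖ₑ) u := by
          rw [lintegral_sub_left_eq_self (fun u => U.indicator (fun u => ‖Kt b t u‖ₑ) u) x]
      _ = ENNReal.ofReal A * ∫⁻ u in U, ‖Kt b t u‖ₑ := by
          rw [lintegral_indicator hUm]
      _ ≤ ENNReal.ofReal A * ENNReal.ofReal (CT * 10 ^ (n + 3) * (R ^ N)⁻¹) :=
          mul_le_mul' le_rfl (htail.trans (ENNReal.ofReal_le_ofReal hK))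
      _ = _ := (ENNReal.ofReal_mul hA0).symm
  rw [← ofReal_norm] at hmain
  have hpos2 : 0 ≤ A * (CT * 10 ^ (n + 3) * (R ^ N)⁻¹) := by positivity
  have h8 := (ENNReal.ofReal_le_ofReal_iff hpos2).1 hmain
  refine h8.trans ?_
  have h9 : 0 ≤ A * (R ^ N)⁻¹ := by positivity
  nlinarith [mul_nonneg (by linarith : (0 : ℝ) ≤ C₁ + 1) h9]

end Pool.Agent.H26.HD.BCF
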